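import Pool.Agent.Y726.KCM.Final

/-!
# MP_6f5b46_pr: not every stationary measure of a KCM is a mixture of the measures `π_β`

The answer to Q1 is negative.  The counterexample is the model FA-6f on `ℤ ^ 3` (`c_x` is the
indicator function of the event that the six nearest neighbours of `x` are infected), a translation
invariant, monotone, nearest neighbour model, for every `0 < q ≤ 1 / 2593`.

`KCM d` is a kinetically constrained model on `ℤ ^ d` (bounded rates `c_x(η) ≥ 0` of a fixed range
`r`, which do not depend on `η_x`), `gen` its generator on local functions, and `IsSemigroup K q P`
says that `P` is its Markov semigroup: a strongly continuous semigroup of positive operators on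
`C(Ω)` which fix the constants, with generator `gen` on local functions.  The first part of the
theorem is that there is exactly one such semigroup, for all models.  `IsStationary K q μ` says that
`μ` is a probability measure with `μ P_t = μ` for all `t`, and `IsMixture K q μ` is the assertion of
Q1 for `μ`: `μ(f) = ∫ π_β(f) dμ_*(β)` for all local `f`, with a probability measure `μ_*` on
`{β : [β] = β}` concentrated on admissible `β`; here `closure K β` is `[β]`, `evA K β L` is
`A_L(β)`, and `condπ K q β f` is `π_β(f)`.

The last part shows more.  Let `β₀ = 1` on the sites `x` with `x_3 ≤ -2` or `x_3 ≥ 3` and `β₀ = 0`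
elsewhere.  There are two different stationary measures for which `[η] = β₀` almost surely, so that
they are not both mixtures of the measures `ν β`, for any choice of one measure `ν β` on
`{η : [η] = β}` for each `β`.

Proof.  Started with `η = β₀` outside of the layers `x_3 = 0` and `x_3 = 1`, only the spins in these
two layers change.  If no two neighbouring sites are occupied there, the dynamics is the Glauber
dynamics of the hard-core lattice gas on `ℤ ^ 2 × {0, 1}` with activity `(1 - q) / q`, and `[η] = β₀`.
The graph `ℤ ^ 2 × {0, 1}` is the bipartite double cover of `ℤ ^ 2` with loops, so this is the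
Widom–Rowlinson model on `ℤ ^ 2` with exclusion between neighbours: the even sites carry one type of
particles, the odd sites the other one.  For a boundary condition with particles of the first type,
given the set `ω` of the occupied cells the types are constant on the clusters; if `x` is not in `ω`
then the number of the colourings of `ω` is at most `16` times the number of the colourings of
`ω ∪ {x}`.  So the cells of a finite set `S` are all empty with probability at most
`(16 / activity) ^ |S|`.  A box of side `3 ^ (k + 1)` is called good if at most one of its nine parts
of side `3 ^ k` is not good; a good box has a connected core, which for neighbouring good boxes is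
connected with the core of the other one, so that the origin is occupied by a particle of the first
type if the boxes around the origin of all sizes are good, and this has probability at least
`80 / 81`.  Limits of the finite volume measures for the two boundary conditions are stationary, since
they satisfy detailed balance.  If both were mixtures of the `π_β` then `μ_*` would be concentrated on
`β₀`, and both would be equal to `π_{β₀}`.

The semigroup is the limit of the finite volume semigroups, as the norm of the `n`-th power of the
generator applied to a local function grows at most like `C ^ n n!`.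
-/

set_option autoImplicit false

namespace Pool.Agent.Results.MP_6f5b46_pr.PhaseCoexistence

open MeasureTheory unitInterval Pool.Agent.Y726.Kc

theorem result :
    (∀ (d : ℕ) (K : KCM d) (q : I), ∃! P, IsSemigroup K q P) ∧
    ∀ q : I, 0 < (q : ℝ) → (q : ℝ) ≤ 1 / 2593 →
      (∃ μ : Measure (Config 3), IsStationary (FA 3) q μ ∧ ¬ IsMixture (FA 3) q μ) ∧
      ∃ μ₀ μ₁ : Measure (Config 3), IsStationary (FA 3) q μ₀ ∧ IsStationary (FA 3) q μ₁ ∧
        μ₀ ≠ μ₁ ∧
        (∀ᵐ η ∂μ₀, closure (FA 3) η = β₀) ∧ (∀ᵐ η ∂μ₁, closure (FA 3) η = β₀) ∧
        ∀ ν : Config 3 → Measure (Config 3),
          ¬ (IsMixtureOf (FA 3) ν μ₀ ∧ IsMixtureOf (FA 3) ν μ₁) := by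
  refine ⟨fun d K q => existsUnique_semigroup K q, ?_⟩
  intro q h0 h1
  obtain ⟨μ₀, μ₁, s0, s1, c0, c1, e0, e1, m, n⟩ := main q h0 h1
  refine ⟨?_, μ₀, μ₁, s0, s1, ?_, c0, c1, n⟩
  · by_cases h : IsMixture (FA 3) q μ₀
    · exact ⟨μ₁, s1, fun h' => m ⟨h, h'⟩⟩
    · exact ⟨μ₀, s0, h⟩
  · rintro rfl
    linarith

end Pool.Agent.Results.MP_6f5b46_pr.PhaseCoexistence
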